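import Mathlib

/-!
# `MP_3ca1b2_co`: the chromatic spectrum of `S`-signed graphs need not be an interval

Finite loopless graphs (parallel edges allowed).  For the cyclic group `S` of rotations of `[k]` and
the graph with two vertices joined by `k` parallel edges the `S`-chromatic spectrum is
`{1, …, ⌊k/2⌋ + 1} ∪ {k + 1}`, so it has a gap for every `k ≥ 3` and the gaps get arbitrarily long.
-/

namespace Pool.Agent.Results.MP_3ca1b2_co.GapsOfEveryLength

/-- A loopless graph with vertex set `V` and edge set `E`; every edge `e` comes with a reference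
orientation `tail e → head e`. -/
structure LGraph (V E : Type) where
  tail : E → V
  head : E → V
  loopless : ∀ e, tail e ≠ head e

/-- Start of the arc `(e, b)`: `(e, true)` is the arc `tail e → head e`, `(e, false)` its reverse. -/
def LGraph.src {V E : Type} (G : LGraph V E) (a : E × Bool) : V :=
  if a.2 then G.tail a.1 else G.head a.1

/-- End of the arc `(e, b)`. -/
def LGraph.dst {V E : Type} (G : LGraph V E) (a : E × Bool) : V :=
  if a.2 then G.head a.1 else G.tail a.1

/-- A permutation of `[k] = {1, …, k}`, extended to `ℕ` by fixing everything else. -/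
def IsPermOf (k : ℕ) (π : Equiv.Perm ℕ) : Prop := ∀ x, (x = 0 ∨ k < x) → π x = x

/-- `σ` is an `S`-signature of a graph with edge set `E`: arcs get elements of `S`, and reverse arcs
get inverse permutations. -/
def IsSignature {E : Type} (S : Set (Equiv.Perm ℕ)) (σ : E × Bool → Equiv.Perm ℕ) : Prop :=
  (∀ a, σ a ∈ S) ∧ ∀ e b, σ (e, !b) = (σ (e, b))⁻¹

/-- `c` is a `j`-colouring of `(G, σ)`. -/
def IsColouring {V E : Type} (G : LGraph V E) (σ : E × Bool → Equiv.Perm ℕ) (j : ℕ)
    (c : V → ℕ) : Prop :=
  (∀ v, 1 ≤ c v ∧ c v ≤ j) ∧ ∀ a, σ a (c (G.src a)) ≠ c (G.dst a)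

/-- `j` is the chromatic number of `(G, σ)`: the least positive `j` admitting a `j`-colouring. -/
def IsChi {V E : Type} (G : LGraph V E) (σ : E × Bool → Equiv.Perm ℕ) (j : ℕ) : Prop :=
  IsLeast {j : ℕ | 1 ≤ j ∧ ∃ c, IsColouring G σ j c} j

/-- The `S`-chromatic spectrum of `G`. -/
def spectrum {V E : Type} (S : Set (Equiv.Perm ℕ)) (G : LGraph V E) : Set ℕ :=
  {j | ∃ σ : E × Bool → Equiv.Perm ℕ, IsSignature S σ ∧ IsChi G σ j}

/-- The assertion of Q1: all spectra are intervals of integers. -/
def IntervalProperty : Prop :=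
  ∀ (k : ℕ), 1 ≤ k → ∀ S : Set (Equiv.Perm ℕ), S.Nonempty → (∀ π ∈ S, IsPermOf k π) →
    (∀ π ∈ S, π⁻¹ ∈ S) → ∀ (V E : Type) [Fintype V] [Fintype E] (G : LGraph V E) (a b c : ℕ),
      a < b → b < c → a ∈ spectrum S G → c ∈ spectrum S G → b ∈ spectrum S G

/-- The set of rotations of `[k]`. -/
def rotations (k : ℕ) : Set (Equiv.Perm ℕ) :=
  {π | IsPermOf k π ∧ ∃ t : ℕ, ∀ x, 1 ≤ x → x ≤ k → π x = (x - 1 + t) % k + 1}

/-- The graph with two vertices and `m` parallel edges. -/
def bond (m : ℕ) : LGraph Bool (Fin m) where
  tail := fun _ => true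
  head := fun _ => false
  loopless := by intro e; simp

/-- The rotation by `t`. -/
def rot (k t : ℕ) : Equiv.Perm ℕ where
  toFun x := if 1 ≤ x ∧ x ≤ k then (x - 1 + t) % k + 1 else x
  invFun x := if 1 ≤ x ∧ x ≤ k then (x - 1 + (k - t % k)) % k + 1 else x
  left_inv := by
    intro x
    by_cases h : 1 ≤ x ∧ x ≤ k
    · have hk : 0 < k := by omega
      have h1 : (x - 1 + t) % k < k := Nat.mod_lt _ hk
      have h2 : t % k < k := Nat.mod_lt _ hk
      simp only [h, and_self, if_true]
      rw [if_pos (by omega)]
      have e1 : ((x - 1 + t) % k + 1 - 1 + (k - t % k)) % k = (x - 1) % k := by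
        rw [Nat.add_sub_cancel]
        have : ((x - 1 + t) % k + (k - t % k)) % k = ((x - 1 + t % k) + (k - t % k)) % k := by
          rw [Nat.add_mod, Nat.mod_mod, ← Nat.add_mod]
          rw [Nat.add_mod (x - 1 + t) , Nat.add_mod (x - 1) t, Nat.add_mod (x - 1 + t % k),
            Nat.add_mod (x - 1) (t % k), Nat.mod_mod]
        rw [this]
        have : x - 1 + t % k + (k - t % k) = x - 1 + k := by omega
        rw [this, Nat.add_mod_right]
      rw [e1, Nat.mod_eq_of_lt (by omega)]
      omega
    · simp [h]
  right_inv := by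
    intro x
    by_cases h : 1 ≤ x ∧ x ≤ k
    · have hk : 0 < k := by omega
      have h1 : (x - 1 + (k - t % k)) % k < k := Nat.mod_lt _ hk
      have h2 : t % k < k := Nat.mod_lt _ hk
      simp only [h, and_self, if_true]
      rw [if_pos (by omega)]
      have e1 : ((x - 1 + (k - t % k)) % k + 1 - 1 + t) % k = (x - 1) % k := by
        rw [Nat.add_sub_cancel]
        have : ((x - 1 + (k - t % k)) % k + t) % k = ((x - 1 + (k - t % k)) + t % k) % k := by
          rw [Nat.add_mod, Nat.mod_mod, ← Nat.add_mod]
          rw [Nat.add_mod (x - 1 + (k - t % k)) t, Nat.add_mod (x - 1 + (k - t % k)) (t % k),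
            Nat.mod_mod]
        rw [this]
        have : x - 1 + (k - t % k) + t % k = x - 1 + k := by omega
        rw [this, Nat.add_mod_right]
      rw [e1, Nat.mod_eq_of_lt (by omega)]
      omega
    · simp [h]

lemma rot_apply {k t x : ℕ} (h1 : 1 ≤ x) (h2 : x ≤ k) : rot k t x = (x - 1 + t) % k + 1 := by
  simp [rot, h1, h2]

lemma rot_symm_apply {k t x : ℕ} (h1 : 1 ≤ x) (h2 : x ≤ k) :
    (rot k t)⁻¹ x = (x - 1 + (k - t % k)) % k + 1 := by
  show (rot k t).symm x = _
  simp [rot, h1, h2]

lemma rot_isPermOf (k t : ℕ) : IsPermOf k (rot k t) := by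
  intro x hx
  have : ¬ (1 ≤ x ∧ x ≤ k) := by omega
  simp [rot, this]

lemma rot_mem (k t : ℕ) : rot k t ∈ rotations k :=
  ⟨rot_isPermOf k t, t, fun _ h1 h2 => rot_apply h1 h2⟩

lemma inv_isPermOf {k : ℕ} {π : Equiv.Perm ℕ} (h : IsPermOf k π) : IsPermOf k π⁻¹ := by
  intro x hx
  have := h x hx
  rw [Equiv.Perm.inv_eq_iff_eq]
  exact this.symm

/-- a permutation in `rotations k` is some `rot k t`. -/
lemma eq_rot {k : ℕ} {π : Equiv.Perm ℕ} (h : π ∈ rotations k) : ∃ t, π = rot k t := by
  obtain ⟨h1, t, ht⟩ := h
  refine ⟨t, ?_⟩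
  ext x
  by_cases hx : 1 ≤ x ∧ x ≤ k
  · rw [ht x hx.1 hx.2, rot_apply hx.1 hx.2]
  · rw [h1 x (by omega), rot_isPermOf k t x (by omega)]

lemma rotations_inv {k : ℕ} {π : Equiv.Perm ℕ} (h : π ∈ rotations k) : π⁻¹ ∈ rotations k := by
  obtain ⟨t, rfl⟩ := eq_rot h
  exact ⟨inv_isPermOf (rot_isPermOf k t), k - t % k, fun _ h1 h2 => rot_symm_apply h1 h2⟩

/-- colouring condition on the bond only involves the arcs `(e, true)`. -/
lemma isColouring_bond_iff {m j : ℕ} {σ : Fin m × Bool → Equiv.Perm ℕ} {c : Bool → ℕ}
    (hσ : ∀ e b, σ (e, !b) = (σ (e, b))⁻¹) :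
    IsColouring (bond m) σ j c ↔
      (∀ v, 1 ≤ c v ∧ c v ≤ j) ∧ ∀ e, σ (e, true) (c true) ≠ c false := by
  constructor
  · rintro ⟨h1, h2⟩
    refine ⟨h1, fun e => ?_⟩
    have := h2 (e, true)
    simpa [LGraph.src, LGraph.dst, bond] using this
  · rintro ⟨h1, h2⟩
    refine ⟨h1, ?_⟩
    rintro ⟨e, b⟩
    cases b
    · have h3 : σ (e, false) = (σ (e, true))⁻¹ := hσ e true
      rw [h3]
      simp only [LGraph.src, LGraph.dst, bond]
      intro h4
      apply h2 e
      have h5 : (σ (e, true))⁻¹ (c false) = c true := by simpa using h4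
      rw [← h5]
      simp
    · have := h2 e
      simpa [LGraph.src, LGraph.dst, bond] using this

/-- signature of the bond with labels given on the arcs `(e, true)`. -/
def sig {m : ℕ} (k : ℕ) (T : Fin m → ℕ) : Fin m × Bool → Equiv.Perm ℕ :=
  fun a => if a.2 then rot k (T a.1) else (rot k (T a.1))⁻¹

lemma sig_isSignature {m k : ℕ} (T : Fin m → ℕ) : IsSignature (rotations k) (sig k T) := by
  constructor
  · rintro ⟨e, b⟩
    cases b
    · exact rotations_inv (rot_mem _ _)
    · exact rot_mem _ _
  · intro e b
    cases b <;> simp [sig]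

/-- the difference condition. -/
lemma rot_eq_iff {k t a b : ℕ} (ha : 1 ≤ a) (hak : a ≤ k) (hb : 1 ≤ b) (hbk : b ≤ k) :
    rot k t a = b ↔ (a + t) % k = b % k := by
  rw [rot_apply ha hak]
  have hk : 0 < k := by omega
  have h1 : (a - 1 + t) % k < k := Nat.mod_lt _ hk
  constructor
  · intro h
    have h2 : b = (a - 1 + t) % k + 1 := h.symm
    have h3 : a + t = (a - 1 + t) + 1 := by omega
    rw [h2, h3, Nat.add_mod (a - 1 + t) 1 k, Nat.add_mod ((a - 1 + t) % k) 1 k, Nat.mod_mod]
  · intro h
    have h3 : (a - 1 + t) ≡ b - 1 [MOD k] := by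
      have h4 : (a - 1 + t) + 1 ≡ (b - 1) + 1 [MOD k] := by
        have e1 : (a - 1 + t) + 1 = a + t := by omega
        have e2 : (b - 1) + 1 = b := by omega
        rw [e1, e2]; exact h
      exact Nat.ModEq.add_right_cancel' 1 h4
    have h5 : (a - 1 + t) % k = (b - 1) % k := h3
    rw [Nat.mod_eq_of_lt (show b - 1 < k by omega)] at h5
    omega

theorem spectrum_bond (k : ℕ) (hk : 2 ≤ k) :
    spectrum (rotations k) (bond k) = {j | 1 ≤ j ∧ j ≤ k / 2 + 1} ∪ {k + 1} := by
  ext j
  constructor
  · rintro ⟨σ, ⟨hS, hinv⟩, hj⟩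
    -- labels
    have hT : ∀ e : Fin k, ∃ t, σ (e, true) = rot k t := fun e => eq_rot (hS (e, true))
    choose T hT using hT
    by_cases hall : ∀ x < k, ∃ e, T e % k = x
    · -- all differences are blocked
      right
      have hno : ∀ i, i ≤ k → ¬ ∃ c, IsColouring (bond k) σ i c := by
        rintro i hi ⟨c, hc⟩
        rw [isColouring_bond_iff hinv] at hc
        obtain ⟨h1, h2⟩ := hc
        have ha := h1 true
        have hb := h1 false
        obtain ⟨e, he⟩ := hall ((c false + (k - c true)) % k) (Nat.mod_lt _ (by omega))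
        apply h2 e
        rw [hT e, rot_eq_iff ha.1 (by omega) hb.1 (by omega)]
        rw [Nat.add_mod, he, ← Nat.add_mod_mod]
        have : c true % k + (c false + (k - c true)) % k % k = c true % k + (c false + (k - c true)) % k := by
          rw [Nat.mod_mod]
        rw [Nat.add_mod, Nat.mod_mod, Nat.mod_mod, Nat.mod_mod, ← Nat.add_mod]
        have : c true + (c false + (k - c true)) = c false + k := by omega
        rw [this, Nat.add_mod_right]
      have hyes : ∃ c, IsColouring (bond k) σ (k + 1) c := by
        refine ⟨fun b => if b then k + 1 else 1, ?_⟩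
        rw [isColouring_bond_iff hinv]
        refine ⟨?_, ?_⟩
        · intro v; cases v <;> simp
        · intro e
          rw [hT e]
          simp only [if_true]
          rw [rot_isPermOf k (T e) (k + 1) (by omega)]
          simp
          omega
      have h1 : j ≤ k + 1 := hj.2 ⟨by omega, hyes⟩
      have h2 : ¬ j ≤ k := fun h => hno j h hj.1.2
      show j = k + 1
      omega
    · left
      push Not at hall
      obtain ⟨x, hx, hxe⟩ := hall
      have hyes : ∃ c, IsColouring (bond k) σ (k / 2 + 1) c := by
        by_cases hx2 : x ≤ k / 2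
        · refine ⟨fun b => if b then 1 else 1 + x, ?_⟩
          rw [isColouring_bond_iff hinv]
          refine ⟨?_, ?_⟩
          · intro v; cases v <;> simp <;> omega
          · intro e
            rw [hT e]
            simp only [if_true]
            intro h
            have h' := (rot_eq_iff (le_refl 1) (by omega) (by simp) (by simp; omega)).1 h
            apply hxe e
            have h4 : 1 + T e ≡ 1 + x [MOD k] := by simpa [Nat.ModEq] using h'
            have h5 : T e ≡ x [MOD k] := Nat.ModEq.add_left_cancel' 1 h4
            have h6 : T e % k = x % k := h5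
            rw [h6, Nat.mod_eq_of_lt hx]
        · refine ⟨fun b => if b then 1 + (k - x) else 1, ?_⟩
          rw [isColouring_bond_iff hinv]
          refine ⟨?_, ?_⟩
          · intro v; cases v <;> simp <;> omega
          · intro e
            rw [hT e]
            simp only [if_true]
            intro h
            have h' := (rot_eq_iff (by omega) (by omega) (by simp) (by simp; omega)).1 h
            apply hxe e
            have h4 : (1 + (k - x)) + T e ≡ (1 + (k - x)) + x [MOD k] := by
              have h7 : (1 + (k - x)) + x = 1 + k := by omega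
              rw [h7]
              have h8 : (1 + (k - x) + T e) % k = 1 % k := by simpa using h'
              show (1 + (k - x) + T e) % k = (1 + k) % k
              rw [h8, Nat.add_mod_right]
            have h5 : T e ≡ x [MOD k] := Nat.ModEq.add_left_cancel' _ h4
            have h6 : T e % k = x % k := h5
            rw [h6, Nat.mod_eq_of_lt hx]
      exact ⟨hj.1.1, hj.2 ⟨by omega, hyes⟩⟩
  · rintro (⟨h1, h2⟩ | hj)
    · -- realise j ≤ k / 2 + 1
      by_cases hj1 : j = 1
      · subst hj1
        refine ⟨sig k (fun _ => 1), sig_isSignature _, ⟨⟨le_refl 1, fun _ => 1, ?_⟩, ?_⟩⟩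
        · rw [isColouring_bond_iff (sig_isSignature _).2]
          refine ⟨by simp, fun e => ?_⟩
          simp only [sig, if_true]
          rw [rot_apply (le_refl 1) (by omega)]
          have : (1 - 1 + 1) % k = 1 := by
            simpa using Nat.mod_eq_of_lt (show 1 < k by omega)
          rw [this]; norm_num
        · rintro i ⟨hi, -⟩; exact hi
      · have hj2 : 2 ≤ j := by omega
        -- labels e ↦ e if e ≤ j - 2 or k - e ≤ j - 2, and 0 otherwise
        refine ⟨sig k (fun e => if e.val ≤ j - 2 ∨ k - e.val ≤ j - 2 then e.val else 0),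
          sig_isSignature _, ⟨⟨h1, fun b => if b then 1 else j, ?_⟩, ?_⟩⟩
        · rw [isColouring_bond_iff (sig_isSignature _).2]
          refine ⟨?_, fun e => ?_⟩
          · intro v; cases v <;> simp <;> omega
          · have he := e.isLt
            show rot k (if e.val ≤ j - 2 ∨ k - e.val ≤ j - 2 then e.val else 0) 1 ≠ j
            rw [rot_apply (le_refl 1) (by omega)]
            by_cases h : e.val ≤ j - 2 ∨ k - e.val ≤ j - 2
            · rw [if_pos h]
              have h5 : (1 - 1 + e.val) % k = e.val := by
                rw [show 1 - 1 + e.val = e.val by omega]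
                exact Nat.mod_eq_of_lt he
              rw [h5]
              omega
            · rw [if_neg h]
              have h5 : (1 - 1 + 0) % k = 0 := by simp
              rw [h5]
              omega
        · rintro i ⟨hi, c, hc⟩
          rw [isColouring_bond_iff (sig_isSignature _).2] at hc
          obtain ⟨hc1, hc2⟩ := hc
          by_contra hlt
          push Not at hlt
          have ha := hc1 true
          have hb := hc1 false
          by_cases hab : c true ≤ c false
          · have hlt2 : c false - c true < k := by omega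
            apply hc2 ⟨c false - c true, hlt2⟩
            simp only [sig, if_true]
            rw [if_pos (by left; omega)]
            rw [rot_eq_iff ha.1 (by omega) hb.1 (by omega)]
            congr 1; omega
          · have hlt2 : k - (c true - c false) < k := by omega
            apply hc2 ⟨k - (c true - c false), hlt2⟩
            simp only [sig, if_true]
            rw [if_pos (by right; omega)]
            rw [rot_eq_iff ha.1 (by omega) hb.1 (by omega)]
            have : c true + (k - (c true - c false)) = c false + k := by omega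
            rw [this, Nat.add_mod_right]
    · have hj' : j = k + 1 := hj
      subst hj'
      refine ⟨sig k (fun e => e.val), sig_isSignature _,
        ⟨⟨by omega, fun b => if b then k + 1 else 1, ?_⟩, ?_⟩⟩
      · rw [isColouring_bond_iff (sig_isSignature _).2]
        refine ⟨?_, fun e => ?_⟩
        · intro v; cases v <;> simp
        · simp only [sig, if_true]
          rw [rot_isPermOf k _ (k + 1) (by omega)]
          simp
          omega
      · rintro i ⟨hi, c, hc⟩
        rw [isColouring_bond_iff (sig_isSignature _).2] at hc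
        obtain ⟨hc1, hc2⟩ := hc
        by_contra hlt
        push Not at hlt
        have ha := hc1 true
        have hb := hc1 false
        by_cases hab : c true ≤ c false
        · have hlt2 : c false - c true < k := by omega
          apply hc2 ⟨c false - c true, hlt2⟩
          simp only [sig, if_true]
          rw [rot_eq_iff ha.1 (by omega) hb.1 (by omega)]
          congr 1; omega
        · have hlt2 : k - (c true - c false) < k := by omega
          apply hc2 ⟨k - (c true - c false), hlt2⟩
          simp only [sig, if_true]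
          rw [rot_eq_iff ha.1 (by omega) hb.1 (by omega)]
          have : c true + (k - (c true - c false)) = c false + k := by omega
          rw [this, Nat.add_mod_right]

/-- **Main result.**  (1) For every `k ≥ 2`, with `S` the rotations of `[k]` and `G` two vertices joined
by `k` parallel edges, `Σ_S(G) = {1, …, ⌊k/2⌋ + 1} ∪ {k + 1}`.  (2) The interval property of Q1
fails. -/
theorem result :
    (∀ k : ℕ, 2 ≤ k →
      spectrum (rotations k) (bond k) = {j | 1 ≤ j ∧ j ≤ k / 2 + 1} ∪ {k + 1}) ∧
    ¬ IntervalProperty := by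
  refine ⟨spectrum_bond, fun H => ?_⟩
  have h := spectrum_bond 3 (by norm_num)
  have h2 : 2 ∈ spectrum (rotations 3) (bond 3) := by rw [h]; left; norm_num
  have h4 : 4 ∈ spectrum (rotations 3) (bond 3) := by rw [h]; right; norm_num
  have h3 := H 3 (by norm_num) (rotations 3) ⟨_, rot_mem 3 0⟩ (fun π hπ => hπ.1)
    (fun π hπ => rotations_inv hπ) Bool (Fin 3) (bond 3) 2 3 4 (by norm_num) (by norm_num) h2 h4
  rw [h] at h3
  rcases h3 with ⟨_, h3⟩ | h3
  · norm_num at h3
  · have : (3 : ℕ) = 3 + 1 := h3
    omega

end Pool.Agent.Results.MP_3ca1b2_co.GapsOfEveryLength
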